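import Mathlib

set_option autoImplicit false

open scoped Pointwise

namespace Pool.Agent.Results.MP_a5fc84_co.AdditiveCover

/-- Approximate subfields (finite or infinite) of a field. -/
structure IsApproxSubfield {F : Type*} [Field F] (X : Set F) : Prop where
  zero_mem : (0 : F) ∈ X
  neg_eq : -X = X
  one_mem : (1 : F) ∈ X
  inv_eq : (X \ {0})⁻¹ = X \ {0}
  cover : ∃ E : Set F, E.Finite ∧ X * X + X ⊆ (E * X) ∩ (E + X)

/-- `S_n(X)`: sums of at most `n` terms, each a product of at most `n` elements of `X`. -/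
def S {F : Type*} [Field F] (n : ℕ) (X : Set F) : Set F :=
  {s | ∃ l : List (List F), l.length ≤ n ∧ (∀ p ∈ l, p.length ≤ n ∧ ∀ x ∈ p, x ∈ X) ∧
    s = (l.map List.prod).sum}

/-- `Alg_n(X)`. -/
def Alg {F : Type*} [Field F] (n : ℕ) (X : Set F) : Set F :=
  {z | ∃ a ∈ S n X, ∃ b ∈ S n X, b ≠ 0 ∧ z = a / b}

section
variable {F : Type*} [Field F] {X : Set F}

/-- The multiplier ring. -/
def R (X : Set F) : Set F := {r | ∃ T : Set F, T.Finite ∧ ∀ x ∈ X, r * x ∈ T + X}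

theorem neg_mem (h : IsApproxSubfield X) {x : F} (hx : x ∈ X) : -x ∈ X := by
  rw [← h.neg_eq]; simpa using hx

theorem inv_mem (h : IsApproxSubfield X) {x : F} (hx : x ∈ X) (h0 : x ≠ 0) : x⁻¹ ∈ X := by
  have : x⁻¹ ∈ (X \ {0})⁻¹ := by
    rw [Set.mem_inv, inv_inv]; exact ⟨hx, h0⟩
  rw [h.inv_eq] at this
  exact this.1

theorem R_of_mem (h : IsApproxSubfield X) {x : F} (hx : x ∈ X) : x ∈ R X := by
  obtain ⟨E, hE, hc⟩ := h.cover
  refine ⟨E, hE, fun y hy => (hc ?_).2⟩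
  refine ⟨x * y, ⟨x, hx, y, hy, rfl⟩, 0, h.zero_mem, ?_⟩
  simp

theorem R_add (h : IsApproxSubfield X) {r s : F} (hr : r ∈ R X) (hs : s ∈ R X) :
    r + s ∈ R X := by
  obtain ⟨E, hE, hc⟩ := h.cover
  obtain ⟨T, hT, hT'⟩ := hr
  obtain ⟨U, hU, hU'⟩ := hs
  refine ⟨T + U + E, (hT.add hU).add hE, fun x hx => ?_⟩
  obtain ⟨t, ht, y, hy, e1⟩ := hT' x hx
  obtain ⟨u, hu, z, hz, e2⟩ := hU' x hx
  have : y + z ∈ E + X := (hc ⟨y * 1, ⟨y, hy, 1, h.one_mem, rfl⟩, z, hz, by simp⟩).2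
  obtain ⟨e, he, w, hw, e3⟩ := this
  refine ⟨t + u + e, ⟨t + u, ⟨t, ht, u, hu, rfl⟩, e, he, rfl⟩, w, hw, ?_⟩
  simp only at e1 e2 e3 ⊢
  rw [add_mul, ← e1, ← e2]
  linear_combination e3

theorem R_mul {r s : F} (hr : r ∈ R X) (hs : s ∈ R X) : r * s ∈ R X := by
  obtain ⟨T, hT, hT'⟩ := hr
  obtain ⟨U, hU, hU'⟩ := hs
  refine ⟨(fun u => r * u) '' U + T, (hU.image _).add hT, fun x hx => ?_⟩
  obtain ⟨u, hu, z, hz, e2⟩ := hU' x hx
  obtain ⟨t, ht, y, hy, e1⟩ := hT' z hz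
  refine ⟨r * u + t, ⟨r * u, ⟨u, hu, rfl⟩, t, ht, rfl⟩, y, hy, ?_⟩
  simp only at e1 e2 ⊢
  rw [mul_assoc, ← e2]
  linear_combination e1

theorem R_pow (h : IsApproxSubfield X) {r : F} (hr : r ∈ R X) (n : ℕ) : r ^ n ∈ R X := by
  induction n with
  | zero => rw [pow_zero]; exact R_of_mem h h.one_mem
  | succ n ih => rw [pow_succ]; exact R_mul ih hr

/-- Multiplicative covering of the multiplier ring. -/
theorem R_cover (h : IsApproxSubfield X) (hX : X.Infinite) :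
    ∃ D : Set F, D.Finite ∧ ∀ r ∈ R X, r ≠ 0 → ∃ d ∈ D, ∃ x ∈ X, d ≠ 0 ∧ x ≠ 0 ∧ r = d * x := by
  obtain ⟨E, hE, hc⟩ := h.cover
  refine ⟨(fun p : F × F × F => p.1 * p.2.1⁻¹ * p.2.2) '' (E ×ˢ E ×ˢ E),
    (hE.prod (hE.prod hE)).image _, fun r hr hr0 => ?_⟩
  obtain ⟨T, hT, hT'⟩ := hr
  choose! t ht using hT'
  have hfin : (t '' X).Finite := by
    refine hT.subset ?_
    rintro _ ⟨x, hx, rfl⟩
    exact (ht x hx).1
  obtain ⟨x, hx, x', hx', hne, htt⟩ : ∃ x ∈ X, ∃ x' ∈ X, x ≠ x' ∧ t x = t x' := by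
    by_contra hcon
    push Not at hcon
    have : Set.InjOn t X := fun x hx y hy hxy => by
      by_contra hn
      exact hcon x hx y hy hn hxy
    exact hX ((Set.finite_image_iff this).1 hfin)
  obtain ⟨_, y, hy, e1⟩ := ht x hx
  obtain ⟨_, y', hy', e2⟩ := ht x' hx'
  simp only at e1 e2
  have key : ∀ a ∈ X, ∀ b ∈ X, ∃ e ∈ E, ∃ u ∈ X, a - b = e * u := by
    intro a ha b hb
    have : a - b ∈ E * X := (hc ⟨a * 1, ⟨a, ha, 1, h.one_mem, rfl⟩, -b, neg_mem h hb,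
      by simp [sub_eq_add_neg]⟩).1
    obtain ⟨e, he, u, hu, e3⟩ := this
    exact ⟨e, he, u, hu, e3.symm⟩
  obtain ⟨e, he, u, hu, e3⟩ := key x hx x' hx'
  obtain ⟨e', he', u', hu', e4⟩ := key y hy y' hy'
  have h1 : r * (x - x') = y - y' := by
    rw [htt] at e1
    linear_combination e2 - e1
  have hxx : x - x' ≠ 0 := sub_ne_zero.2 hne
  have hyy : y - y' ≠ 0 := by rw [← h1]; exact mul_ne_zero hr0 hxx
  rw [e3] at hxx
  rw [e4] at hyy
  have he0 : e ≠ 0 := left_ne_zero_of_mul hxx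
  have hu0 : u ≠ 0 := right_ne_zero_of_mul hxx
  have he'0 : e' ≠ 0 := left_ne_zero_of_mul hyy
  have hu'0 : u' ≠ 0 := right_ne_zero_of_mul hyy
  have : u' * u⁻¹ ∈ E * X := (hc ⟨u' * u⁻¹, ⟨u', hu', u⁻¹, inv_mem h hu hu0, rfl⟩, 0,
    h.zero_mem, by simp⟩).1
  obtain ⟨f, hf, w, hw, e5⟩ := this
  simp only at e5
  have hfw : f * w ≠ 0 := by
    rw [e5]; exact mul_ne_zero hu'0 (inv_ne_zero hu0)
  have hf0 : f ≠ 0 := left_ne_zero_of_mul hfw
  have hw0 : w ≠ 0 := right_ne_zero_of_mul hfw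
  refine ⟨e' * e⁻¹ * f, ⟨(e', e, f), ⟨he', he, hf⟩, rfl⟩, w, hw,
    mul_ne_zero (mul_ne_zero he'0 (inv_ne_zero he0)) hf0, hw0, ?_⟩
  rw [mul_assoc, e5]
  rw [e3, e4] at h1
  field_simp
  linear_combination h1

theorem R_inv (h : IsApproxSubfield X) (hX : X.Infinite) {r : F} (hr : r ∈ R X) (hr0 : r ≠ 0) :
    r⁻¹ ∈ R X := by
  obtain ⟨D, hD, hc⟩ := R_cover h hX
  have hp : ∀ n : ℕ, ∃ d ∈ D, ∃ x ∈ X, d ≠ 0 ∧ x ≠ 0 ∧ r ^ n = d * x :=
    fun n => hc (r ^ n) (R_pow h hr n) (pow_ne_zero n hr0)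
  choose d hd x hx hd0 hx0 hrx using hp
  obtain ⟨i, j, hij, hdd⟩ : ∃ i j, i < j ∧ d i = d j := by
    by_contra hcon
    push Not at hcon
    have hinj : Function.Injective d := by
      intro i j hij
      by_contra hne
      rcases lt_or_gt_of_ne hne with h | h
      · exact hcon i j h hij
      · exact hcon j i h hij.symm
    exact Set.infinite_of_injective_forall_mem hinj hd hD
  have e1 : r ^ i * (x j * (x i)⁻¹) = r ^ j := by
    rw [hrx i, hrx j, hdd]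
    field_simp [hx0 i]
  obtain ⟨k, rfl⟩ : ∃ k, j = i + (k + 1) := ⟨j - i - 1, by omega⟩
  have e2 : x (i + (k + 1)) * (x i)⁻¹ = r ^ (k + 1) := by
    rw [pow_add] at e1
    exact mul_left_cancel₀ (pow_ne_zero i hr0) e1
  have e3 : r⁻¹ = r ^ k * (x i * (x (i + (k + 1)))⁻¹) := by
    have e4 : x i * (x (i + (k + 1)))⁻¹ = (r ^ (k + 1))⁻¹ := by
      rw [← e2, mul_inv, inv_inv, mul_comm]
    rw [e4, pow_succ]
    field_simp
  rw [e3]
  exact R_mul (R_pow h hr k) (R_mul (R_of_mem h (hx i))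
    (R_of_mem h (inv_mem h (hx _) (hx0 _))))

/-- The multiplier ring is covered by finitely many additive translates. -/
theorem R_add_cover (h : IsApproxSubfield X) (hX : X.Infinite) :
    ∃ T : Set F, T.Finite ∧ R X ⊆ T + X := by
  obtain ⟨D, hD, hc⟩ := R_cover h hX
  have hex : ∀ d ∈ D ∩ R X, ∃ T : Set F, T.Finite ∧ ∀ x ∈ X, d * x ∈ T + X :=
    fun d hd => hd.2
  choose! T hT hT' using hex
  refine ⟨{0} ∪ ⋃ d ∈ D ∩ R X, T d, (Set.finite_singleton 0).union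
    (Set.Finite.biUnion (hD.subset Set.inter_subset_left) (fun d hd => hT d hd)), ?_⟩
  intro r hr
  by_cases hr0 : r = 0
  · subst hr0
    exact ⟨0, Or.inl rfl, 0, h.zero_mem, by simp⟩
  · obtain ⟨d, hd, x, hx, hd0, hx0, e⟩ := hc r hr hr0
    have hdR : d ∈ R X := by
      have : d = r * x⁻¹ := by rw [e]; field_simp
      rw [this]
      exact R_mul hr (R_of_mem h (inv_mem h hx hx0))
    obtain ⟨t, ht, y, hy, e2⟩ := hT' d ⟨hd, hdR⟩ x hx
    refine ⟨t, Or.inr ?_, y, hy, by rw [e]; exact e2⟩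
    exact Set.mem_biUnion (show d ∈ D ∩ R X from ⟨hd, hdR⟩) ht

theorem S_sub (h : IsApproxSubfield X) (n : ℕ) : S n X ⊆ R X := by
  rintro s ⟨l, _, hl, rfl⟩
  have h0 : (0 : F) ∈ R X := R_of_mem h h.zero_mem
  have h1 : (1 : F) ∈ R X := R_of_mem h h.one_mem
  have hprod : ∀ p : List F, (∀ x ∈ p, x ∈ X) → p.prod ∈ R X := by
    intro p
    induction p with
    | nil => intro _; simpa using h1
    | cons a p ih =>
      intro hp
      rw [List.prod_cons]
      exact R_mul (R_of_mem h (hp a (by simp))) (ih fun x hx => hp x (by simp [hx]))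
  clear * - h h0 hl hprod
  induction l with
  | nil => simpa using h0
  | cons p l ih =>
    rw [List.map_cons, List.sum_cons]
    exact R_add h (hprod p (hl p (by simp)).2) (ih fun q hq => hl q (by simp [hq]))

theorem fin_lists {α : Type*} (Y : Set α) (hY : Y.Finite) (n : ℕ) :
    {p : List α | p.length ≤ n ∧ ∀ x ∈ p, x ∈ Y}.Finite := by
  induction n with
  | zero =>
    refine (Set.finite_singleton ([] : List α)).subset ?_
    rintro p ⟨hp, _⟩
    exact List.length_eq_zero_iff.1 (Nat.le_zero.1 hp)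
  | succ n ih =>
    refine ((Set.finite_singleton ([] : List α)).union
      ((hY.prod ih).image (fun q => q.1 :: q.2))).subset ?_
    rintro p ⟨hp, hm⟩
    cases p with
    | nil => exact Or.inl rfl
    | cons a p =>
      refine Or.inr ⟨(a, p), ⟨hm a (by simp), ?_, fun x hx => hm x (by simp [hx])⟩, rfl⟩
      simpa using hp

theorem finite_S (hX : X.Finite) (n : ℕ) : (S n X).Finite := by
  refine ((fin_lists _ (fin_lists X hX n) n).image (fun l => (l.map List.prod).sum)).subset ?_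
  rintro s ⟨l, hl, hp, rfl⟩
  exact ⟨l, ⟨hl, hp⟩, rfl⟩

end

/-- For every field, every approximate subfield `X` (possibly infinite) and every `n`, the set
`Alg_n(X)` is covered by finitely many additive translates of `X`. -/
theorem result {F : Type*} [Field F] (X : Set F) (h : IsApproxSubfield X) (n : ℕ) :
    ∃ T : Set F, T.Finite ∧ Alg n X ⊆ T + X := by
  by_cases hX : X.Finite
  · refine ⟨Alg n X, ?_, ?_⟩
    · refine (((finite_S hX n).prod (finite_S hX n)).image (fun p => p.1 / p.2)).subset ?_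
      rintro z ⟨a, ha, b, hb, _, rfl⟩
      exact ⟨(a, b), ⟨ha, hb⟩, rfl⟩
    · intro z hz
      exact ⟨z, hz, 0, h.zero_mem, by simp⟩
  · obtain ⟨T, hT, hc⟩ := R_add_cover h hX
    refine ⟨T, hT, fun z hz => hc ?_⟩
    obtain ⟨a, ha, b, hb, hb0, rfl⟩ := hz
    rw [div_eq_mul_inv]
    exact R_mul (S_sub h n ha) (R_inv h hX (S_sub h n hb) hb0)

end Pool.Agent.Results.MP_a5fc84_co.AdditiveCover
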